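import Pool.Agent.L0h32.UX.Stm

/-! # Project UX, module LOC: at most one move leads to a good state -/

set_option autoImplicit false

namespace Pool.Agent.L0h95.UX

open Pool.Agent.L0h32.UX Relation
open Pool.Agent.H630R2.LA (LimAut Sym Cfg Step init initTape WS lrel bitS ix nr Ann keep)

section generic

variable {P : Type} {S : P → Prop} {Eg : ℕ → P → P → Prop} {wt : ℕ → P → P → ℕ}

theorem gpw_gwp {j l : ℕ} {p q : P} {r : ℕ} (hw : GWp Eg wt j p l q r) :
    ∀ v, GPw S Eg wt j p v → GPw S Eg wt l q (v + r) := by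
  induction hw with
  | refl j p => intro v hv; simpa using hv
  | cons j l p p' q v he hw ih =>
    intro u hu
    have h1 : GPw S Eg wt (j + 1) p' (u + wt j p p') := ⟨p, u, hu, he, rfl⟩
    have h2 := ih (u + wt j p p') h1
    rwa [add_assoc] at h2

end generic

section defs

variable {A : Type} {h : ℕ} {rel : A → Fin (2 ^ h) → Fin (2 ^ h) → Bool} {p0 : Fin (2 ^ h)}
  {facc : Fin (2 ^ h) → Bool} {K : ℕ} {W : ℕ → ℕ → Fin (2 ^ h) → Fin (2 ^ h) → ℕ}

theorem nr_of_pw {w : List A} {β i : ℕ} : ∀ (j : ℕ) (p : Fin (2 ^ h)) (v : ℕ),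
    Pw h rel p0 W w β i j p v → nr h rel p0 w (β + j) p
  | 0, _, _, hp => hp.1
  | j + 1, _, _, ⟨p, u, hp, he, _⟩ => ⟨p, nr_of_pw j p u hp, he⟩

theorem ix_val {y : ℕ} (hy : y < 2 ^ h) : (ix h y).val = y := Nat.mod_eq_of_lt hy

theorem cnL_lt {w : List A} {β l y : ℕ} (hy : y < 2 ^ h) (hn : nr h rel p0 w (β + l) (ix h y)) :
    cnL h rel p0 w β l y < cnL h rel p0 w β l (y + 1) := by
  classical
  unfold cnL
  apply Finset.card_lt_card
  rw [Finset.ssubset_iff_of_subset]
  · refine ⟨ix h y, ?_, ?_⟩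
    · rw [Finset.mem_filter]
      exact ⟨Finset.mem_univ _, by rw [ix_val hy]; omega, hn⟩
    · rw [Finset.mem_filter]
      rintro ⟨-, h1, -⟩
      rw [ix_val hy] at h1
      exact lt_irrefl _ h1
  · intro q hq
    rw [Finset.mem_filter] at hq ⊢
    exact ⟨hq.1, by omega, hq.2.2⟩

theorem nr_of_onM {w : List A} {β i j l : ℕ} {p z : Fin (2 ^ h)}
    (ho : OnM h rel p0 W w β i j p l z) : nr h rel p0 w (β + l) z := by
  obtain ⟨v, r, hp, hw, -⟩ := ho
  exact nr_of_pw l z (v + r) (gpw_gwp hw v hp)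

theorem hop_unique {m m₁ m₂ : Mem} (h1 : Hop h p0 facc K m m₁) (h2 : Hop h p0 facc K m m₂) :
    m₁ = m₂ := by
  cases h1 with
  | no hl hy hz =>
    cases h2 with
    | no hl' hy' hz' => rfl
    | nexty hl' hy' hz' hd' he' hm' => omega
    | bad hl' hy' hz' hd' he' hm' hi' => omega
    | layer hl' hy' => omega
  | nexty hl hy hz hd he hm =>
    cases h2 with
    | no hl' hy' hz' => omega
    | nexty hl' hy' hz' hd' he' hm' => rfl
    | bad hl' hy' hz' hd' he' hm' hi' => rw [hm] at hm'; cases hm'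
    | layer hl' hy' => omega
  | bad hl hy hz hd he hm hi =>
    cases h2 with
    | no hl' hy' hz' => omega
    | nexty hl' hy' hz' hd' he' hm' => rw [hm] at hm'; cases hm'
    | bad hl' hy' hz' hd' he' hm' hi' => rfl
    | layer hl' hy' => omega
  | layer hl hy =>
    cases h2 with
    | no hl' hy' hz' => omega
    | nexty hl' hy' hz' hd' he' hm' => omega
    | bad hl' hy' hz' hd' he' hm' hi' => omega
    | layer hl' hy' => rfl

theorem hop_ask {w : List A} {t : ℕ} {m m' : Mem} (hh : Hop h p0 facc K m m')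
    (hy : m.y < 2 ^ h) (hz : m.z < 2 ^ h) {i : ℕ}
    (g1 : Good h rel p0 W w t (.h1 m')) (g2 : Good h rel p0 W w t (.rA m i)) : False := by
  cases hh with
  | no hl' hy' hz' =>
    obtain ⟨⟨hd, -⟩, p, hp, -⟩ := g2
    have h1 : m.d = cnL h rel p0 w (bt h t m) m.l (m.z + 1) := g1.1
    have h2 := cnL_lt hz (nr_of_onM hp)
    omega
  | nexty hl' hy' hz' hd' he' hm' => omega
  | bad hl' hy' hz' hd' he' hm' hi' => omega
  | layer hl' hy' => omega

end defs

theorem t_LOC : S_LOC := by
  refine ⟨?_, ?_⟩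
  · intro A h rel p0 facc K W w t τ ht hA s s₁ s₂ x b₁ b₂ d₁ d₂ hs h1 h2 g1 g2
    cases s with
    | wr x => exact hs.elim
    | hm m =>
      cases h1 with
      | hop _ m' _ hh =>
        cases h2 with
        | hop _ m'' _ hh' =>
          rw [hop_unique hh hh']
          exact ⟨rfl, rfl, rfl⟩
        | ask _ _ hl hy hz => exact (hop_ask hh hy hz g1 g2).elim
        | exi _ _ hf hl => cases hh <;> omega
        | acc _ _ hf hl => cases hh <;> omega
      | ask _ _ hl hy hz =>
        cases h2 with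
        | hop _ m'' _ hh' => exact (hop_ask hh' hy hz g2 g1).elim
        | ask _ _ hl' hy' hz' => exact ⟨rfl, rfl, rfl⟩
        | exi _ _ hf hl' => omega
        | acc _ _ hf hl' => omega
      | exi _ _ hf hl =>
        cases h2 with
        | hop _ m'' _ hh' => cases hh' <;> omega
        | ask _ _ hl' hy' hz' => omega
        | exi _ _ hf' hl' => exact ⟨rfl, rfl, rfl⟩
        | acc _ _ hf' hl' => rw [hf] at hf'; cases hf'
      | acc _ _ hf hl =>
        cases h2 with
        | hop _ m'' _ hh' => cases hh' <;> omega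
        | ask _ _ hl' hy' hz' => omega
        | exi _ _ hf' hl' => rw [hf] at hf'; cases hf'
        | acc _ _ hf' hl' => exact ⟨rfl, rfl, rfl⟩
    | h1 m =>
      cases h1
      cases h2
      exact ⟨rfl, rfl, rfl⟩
    | rA m i =>
      obtain ⟨hM, hl, hy, hz, hi, hx⟩ := hs
      obtain ⟨-, -, -, -, -, -, -, hU, -⟩ := hM
      have key : ∀ i' : ℕ, i' < 2 ^ h → bas m.x m.fin = false →
          Good h rel p0 W w t (.rA m i') → Good h rel p0 W w t (.rB m (ix h i') i') → False := by
        intro i' hi' hb g g'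
        obtain ⟨-, p, hp, -, hp2⟩ := g
        obtain ⟨-, hp'⟩ := g'
        have e := hU (ix h m.z) 0 (Nat.zero_le _) p (ix h i') hp hp'
        have h3 := hp2 hb
        rw [e, ix_val hi'] at h3
        exact lt_irrefl _ h3
      cases h1 with
      | aL _ i' _ =>
        cases h2 with
        | aL _ i'' _ => exact ⟨rfl, rfl, rfl⟩
        | aF _ _ hf =>
          obtain ⟨-, p, hp, hp1, -⟩ := g1
          exact absurd (hp1 hf) (by omega)
        | aC _ i'' _ hf hi' hb => exact (key _ hi' hf g1 g2).elim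
      | aF _ _ hf =>
        cases h2 with
        | aL _ i'' _ =>
          obtain ⟨-, p, hp, hp1, -⟩ := g2
          exact absurd (hp1 hf) (by omega)
        | aF _ _ hf' => exact ⟨rfl, rfl, rfl⟩
        | aC _ i'' _ hf' hi' hb => rw [hf] at hf'; cases hf'
      | aC _ i' _ hf hi' hb =>
        cases h2 with
        | aL _ i'' _ => exact (key _ hi' hf g2 g1).elim
        | aF _ _ hf' => rw [hf] at hf'; cases hf'
        | aC _ i'' _ hf' hi'' hb' => exact ⟨rfl, rfl, rfl⟩
    | rB m p i =>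
      cases h1 <;> cases h2 <;> exact ⟨rfl, rfl, rfl⟩
    | rC m p v i =>
      obtain ⟨hM, hl, hy, hz, hi1, hi2, hx, hpw⟩ := hs
      obtain ⟨-, -, -, -, -, -, -, hU, -⟩ := hM
      cases h1 with
      | cS _ _ p' _ j _ hj hl1 =>
        cases h2 with
        | cS _ _ p'' _ j' _ hj' hl2 =>
          obtain ⟨-, hp', -⟩ := g1
          obtain ⟨-, hp'', -⟩ := g2
          have e : p' = p'' := hU (ix h m.z) (j + 1) (by omega) p' p'' hp' hp''
          subst e
          exact ⟨rfl, rfl, rfl⟩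
        | cD _ _ _ j' _ hj' hp hE => omega
        | cR _ _ _ j' _ hj' hp hE => omega
      | cD _ _ _ j _ hj hp hE =>
        cases h2 with
        | cS _ _ p'' _ j' _ hj' hl2 => omega
        | cD _ _ _ j' _ hj' hp' hE' => exact ⟨rfl, rfl, rfl⟩
        | cR _ _ _ j' _ hj' hp' hE' => omega
      | cR _ _ _ j _ hj hp hE =>
        cases h2 with
        | cS _ _ p'' _ j' _ hj' hl2 => omega
        | cD _ _ _ j' _ hj' hp' hE' => omega
        | cR _ _ _ j' _ hj' hp' hE' => exact ⟨rfl, rfl, rfl⟩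
    | rR m i =>
      cases h1 with
      | rS _ _ _ hi =>
        cases h2 with
        | rS _ _ _ hi' => exact ⟨rfl, rfl, rfl⟩
        | rE _ _ _ hi' => omega
      | rE _ _ _ hi =>
        cases h2 with
        | rS _ _ _ hi' => omega
        | rE _ _ _ hi' => exact ⟨rfl, rfl, rfl⟩
    | ex x' =>
      cases h1
      cases h2
      exact ⟨rfl, rfl, rfl⟩
    | f1 b =>
      cases h1
      cases h2
      exact ⟨rfl, rfl, rfl⟩
    | fin b => cases h1
  · intro A h rel p0 facc K W x σ s₁ s₂ b₁ b₂ d₁ d₂ h1 h2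
    cases h1 <;> cases h2 <;> exact ⟨rfl, rfl, rfl⟩

end Pool.Agent.L0h95.UX
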