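import Pool.Agent.L0h32.UX.Stm

/-! # Project UX, module UNA: uniqueness of the computation with an answer -/

set_option autoImplicit false

namespace Pool.Agent.L0h95.UXU

open Pool.Agent.L0h32.UX Relation
open Pool.Agent.H630R2.LA (LimAut Sym Cfg Step init initTape WS lrel bitS ix nr Ann keep rewrite_keep)

section defs

variable {A : Type} {h : ℕ} {rel : A → Fin (2 ^ h) → Fin (2 ^ h) → Bool} {p0 : Fin (2 ^ h)}
  {facc : Fin (2 ^ h) → Bool} {K : ℕ} {W : ℕ → ℕ → Fin (2 ^ h) → Fin (2 ^ h) → ℕ}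

theorem cnL_zero (w : List A) (β l : ℕ) : cnL h rel p0 w β l 0 = 0 := by
  classical
  unfold cnL
  rw [Finset.card_eq_zero, Finset.filter_eq_empty_iff]
  rintro q - ⟨h1, -⟩
  exact Nat.not_lt_zero _ h1

/-- the initial data are right -/
theorem wok0 (w : List A) : WOK h rel p0 w 0 (w0 h p0) := by
  refine ⟨?_, ?_, ?_, ?_, ?_⟩
  · simp [w0]
  · simp [w0]
  · rw [if_pos (Nat.two_pow_pos h)]
    rfl
  · rw [Nat.zero_mod, cnL_zero]
    rfl
  · rw [Nat.zero_div, Nat.zero_mul]
    show decide (ix h 0 = p0) = true ↔ ix h 0 = p0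
    simp

theorem init_sym [Finite A] {N : ℕ} {hQ : Finite {s : St h // Bd h N s}} {w : List A} {t : ℕ}
    (ht : t < w.length) :
    initTape (uM h rel p0 facc K W N hQ) w (t + 1) = .sym (.raw w[t]) := by
  have h1 : w[t]? = some w[t] := List.getElem?_eq_getElem ht
  simp only [initTape, h1]
  rfl

theorem init_rm [Finite A] {N : ℕ} {hQ : Finite {s : St h // Bd h N s}} (w : List A) :
    initTape (uM h rel p0 facc K W N hQ) w (w.length + 1) = .rm := by
  simp only [initTape, List.getElem?_eq_none (le_refl w.length)]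

/-- the annotation of a new cell -/
theorem ann_new {w : List A} {t : ℕ} {τ : ℕ → Sym (WS A)} {x : Wr} (hA : Ann h rel p0 w τ t)
    (hx : WOK h rel p0 w t x) (ht : t < w.length) :
    Ann h rel p0 w (Function.update τ (t + 1) (.sym (.mark w[t] x.b))) (t + 1) := by
  refine ⟨?_, ?_⟩
  · rw [Function.update_of_ne (by omega)]
    exact hA.1
  · intro i hi
    rcases Nat.lt_or_ge i t with h1 | h1
    · rw [Function.update_of_ne (by omega)]
      exact hA.2 i h1
    · have h2 : i = t := by omega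
      subst h2
      rw [Function.update_self]
      exact ⟨w[i], x.b, List.getElem?_eq_getElem ht, rfl, hx.2.2.2.2⟩

end defs

section una

variable {A : Type} [Finite A] {h : ℕ} {rel : A → Fin (2 ^ h) → Fin (2 ^ h) → Bool}
  {p0 : Fin (2 ^ h)} {facc : Fin (2 ^ h) → Bool} {K : ℕ}
  {W : ℕ → ℕ → Fin (2 ^ h) → Fin (2 ^ h) → ℕ} {N : ℕ} {hQ : Finite {s : St h // Bd h N s}}

/-- the cells `1..t` have been visited, the head is on the cell `t + 1` -/
def Ph1 (w : List A) (t : ℕ) (c : Cfg (uM h rel p0 facc K W N hQ)) : Prop :=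
  ∃ x, c.state.1 = .wr x ∧ c.pos = t + 1 ∧ WOK h rel p0 w t x ∧ Ann h rel p0 w c.tape t ∧
    (∀ i, t < i → c.tape i = initTape (uM h rel p0 facc K W N hQ) w i) ∧
    (∀ i, 1 ≤ i → (i ∈ c.seen ↔ i ≤ t))

/-- the cells `1..t + 1` have been visited -/
def Ph2 (w : List A) (t : ℕ) (c : Cfg (uM h rel p0 facc K W N hQ)) : Prop :=
  SOK h rel p0 facc K W w t c.state.1 c.pos ∧ Ann h rel p0 w c.tape (min (t + 1) w.length) ∧
    (∀ i, min (t + 1) w.length < i → c.tape i = initTape (uM h rel p0 facc K W N hQ) w i) ∧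
    (∀ i, 1 ≤ i → (i ∈ c.seen ↔ i ≤ t + 1))

/-- what is known of a configuration -/
def Inv (w : List A) (c : Cfg (uM h rel p0 facc K W N hQ)) : Prop :=
  ∃ t ≤ w.length, Ph1 w t c ∨ Ph2 w t c

/-- the configuration can lead to the end -/
def GoodC (w : List A) (c : Cfg (uM h rel p0 facc K W N hQ)) : Prop :=
  ∀ t, (∀ i, 1 ≤ i → (i ∈ c.seen ↔ i ≤ t + 1)) → Good h rel p0 W w t c.state.1

theorem inv_init (w : List A) : Inv w (init (uM h rel p0 facc K W N hQ) w) := by
  refine ⟨0, Nat.zero_le _, Or.inl ⟨w0 h p0, rfl, rfl, wok0 w, ⟨rfl, ?_⟩, fun _ _ => rfl, ?_⟩⟩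
  · intro i hi
    exact absurd hi (Nat.not_lt_zero _)
  · intro i hi
    constructor
    · intro hc
      exact absurd hc (Set.notMem_empty i)
    · intro hc
      omega

theorem step1 (hV : S_MV0) (hK : 0 < K) {strict : Prop} {w : List A} {t : ℕ} (ht : t ≤ w.length)
    {c c' : Cfg (uM h rel p0 facc K W N hQ)}
    (hc : Ph1 w t c) (hs : Step strict w.length c c') : Ph2 w t c' := by
  obtain ⟨hpos, q, b, d, hδ, -, hst, ht1, ht2, hseen, hr, hl⟩ := hs
  have hTr : Tr h rel p0 facc K W c.state.1 (c.tape c.pos) q.1 b d := hδ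
  obtain ⟨x, e1, e2, hW, hA, hτ, hS⟩ := hc
  have hnot : c.pos ∉ c.seen := by
    rw [e2]
    intro hc
    have := (hS (t + 1) (by omega)).1 hc
    omega
  have htape := ht2 hnot
  have hseen' : ∀ i, 1 ≤ i → (i ∈ c'.seen ↔ i ≤ t + 1) := by
    intro i hi
    rw [hseen, Set.mem_insert_iff, hS i hi, e2]
    omega
  rw [e1] at hTr
  rcases Nat.lt_or_ge t w.length with hlt | hge
  · have hcell : c.tape c.pos = .sym (.raw w[t]) := by
      rw [e2, hτ (t + 1) (by omega), init_sym hlt]
    rw [hcell] at hTr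
    have hq : q.1 = .hm (mem0 h p0 facc x false 0) ∧ b = .mark w[t] x.b ∧ d = false := by
      generalize q.1 = s' at hTr
      cases hTr
      exact ⟨rfl, rfl, rfl⟩
    obtain ⟨q1, q2, q3⟩ := hq
    have hpos' : c'.pos = t := by
      have := hl q3
      omega
    have hmin : min (t + 1) w.length = t + 1 := by omega
    have htape' : c'.tape = Function.update c.tape (t + 1) (.sym (.mark w[t] x.b)) := by
      rw [htape, hcell, q2, e2]
      rfl
    refine ⟨?_, ?_, ?_, hseen'⟩
    · rw [hst, q1, hpos']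
      exact ⟨hV A h rel p0 facc K W w t 0 x false hK hW (fun _ => hlt)
        (fun hf => absurd hf (by simp)), rfl⟩
    · rw [hmin, htape']
      exact ann_new hA hW hlt
    · intro i hi
      rw [hmin] at hi
      rw [htape', Function.update_of_ne (by omega)]
      exact hτ i (by omega)
  · have hteq : t = w.length := by omega
    subst hteq
    have hcell : c.tape c.pos = .rm := by
      rw [e2, hτ (w.length + 1) (by omega), init_rm]
    rw [hcell] at hTr
    have hq : q.1 = .hm (mem0 h p0 facc x true 0) ∧ b = .dum ∧ d = false := by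
      generalize q.1 = s' at hTr
      cases hTr
      exact ⟨rfl, rfl, rfl⟩
    obtain ⟨q1, q2, q3⟩ := hq
    have hpos' : c'.pos = w.length := by
      have := hl q3
      omega
    have hmin : min (w.length + 1) w.length = w.length := by omega
    have htape' : c'.tape = c.tape := by
      rw [htape, hcell]
      funext i
      by_cases hi : i = c.pos
      · subst hi
        rw [Function.update_self, hcell]
        rfl
      · rw [Function.update_of_ne hi]
    refine ⟨?_, ?_, ?_, hseen'⟩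
    · rw [hst, q1, hpos']
      exact ⟨hV A h rel p0 facc K W w w.length 0 x true hK hW
        (fun hf => absurd hf (by simp)) (fun _ => rfl), rfl⟩
    · rw [hmin, htape']
      exact hA
    · intro i hi
      rw [hmin] at hi
      rw [htape']
      exact hτ i hi

theorem step2 (hM : S_MOV) {strict : Prop} {w : List A} {t : ℕ} (ht : t ≤ w.length)
    {c c' : Cfg (uM h rel p0 facc K W N hQ)}
    (hc : Ph2 w t c) (hs : Step strict w.length c c') :
    (t < w.length ∧ Ph1 w (t + 1) c' ∧ ∃ x, c.state.1 = .ex x) ∨ Ph2 w t c' := by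
  obtain ⟨hpos, q, b, d, hδ, -, hst, ht1, ht2, hseen, hr, hl⟩ := hs
  have hTr : Tr h rel p0 facc K W c.state.1 (c.tape c.pos) q.1 b d := hδ
  obtain ⟨hSOK, hA, hτ, hS⟩ := hc
  obtain ⟨hb, hx1, hcase⟩ := hM A h rel p0 facc K W w t c.tape ht hA c.state.1 q.1 c.pos c'.pos b d
    hSOK hTr hr hl
  have htape' : c'.tape = c.tape := by
    by_cases hin : c.pos ∈ c.seen
    · exact ht1 hin
    · have hrk : (c.tape c.pos).rewrite (keep (c.tape c.pos)) = c.tape c.pos :=
        rewrite_keep (c.tape c.pos)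
      rw [ht2 hin, hb]
      funext i
      by_cases hi : i = c.pos
      · subst hi
        rw [Function.update_self]
        exact hrk
      · rw [Function.update_of_ne hi]
  rcases hcase with ⟨x, e0, e1, e2, e3, hW, hlt⟩ | hSOK'
  · have hmin : min (t + 1) w.length = t + 1 := by omega
    rw [hmin] at hA hτ
    refine Or.inl ⟨hlt, ⟨x, ?_, e3, hW, ?_, ?_, ?_⟩, ⟨x, e0⟩⟩
    · rw [hst]
      exact e1
    · rw [htape']
      exact hA
    · intro i hi
      rw [htape']
      exact hτ i hi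
    · intro i hi
      rw [hseen, Set.mem_insert_iff, hS i hi, e2]
      omega
  · refine Or.inr ⟨?_, ?_, ?_, ?_⟩
    · rw [hst]
      exact hSOK'
    · rw [htape']
      exact hA
    · intro i hi
      rw [htape']
      exact hτ i hi
    · intro i hi
      rw [hseen, Set.mem_insert_iff, hS i hi]
      omega

theorem inv_step (hV : S_MV0) (hM : S_MOV) (hK : 0 < K) {strict : Prop} {w : List A}
    {c c' : Cfg (uM h rel p0 facc K W N hQ)}
    (hc : Inv w c) (hs : Step strict w.length c c') : Inv w c' := by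
  obtain ⟨t, ht, h1 | h2⟩ := hc
  · exact ⟨t, ht, Or.inr (step1 hV hK ht h1 hs)⟩
  · rcases step2 hM ht h2 hs with ⟨hlt, h3, -⟩ | h3
    · exact ⟨t + 1, hlt, Or.inl h3⟩
    · exact ⟨t, ht, Or.inr h3⟩

theorem seen_inj {S : Set ℕ} {t t' : ℕ} (h1 : ∀ i, 1 ≤ i → (i ∈ S ↔ i ≤ t + 1))
    (h2 : ∀ i, 1 ≤ i → (i ∈ S ↔ i ≤ t' + 1)) : t = t' := by
  have e1 := (h2 (t + 1) (by omega)).1 ((h1 (t + 1) (by omega)).2 le_rfl)
  have e2 := (h1 (t' + 1) (by omega)).1 ((h2 (t' + 1) (by omega)).2 le_rfl)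
  omega

/-- goodness goes back -/
theorem good_back (hM : S_MOV) (hB : S_BCK) {strict : Prop} {w : List A}
    {c c' : Cfg (uM h rel p0 facc K W N hQ)}
    (hc : Inv w c) (hs : Step strict w.length c c') (hg : GoodC w c') : GoodC w c := by
  intro t hS
  obtain ⟨t₀, ht, ⟨x, e1, -⟩ | h2⟩ := hc
  · rw [e1]
    trivial
  · have ht0 : t₀ = t := seen_inj h2.2.2.2 hS
    subst ht0
    rcases step2 hM ht h2 hs with ⟨-, -, x, hx⟩ | h3
    · rw [hx]
      trivial
    · have hg' := hg _ h3.2.2.2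
      obtain ⟨hpos, q, b, d, hδ, -, hst, -⟩ := hs
      have hTr : Tr h rel p0 facc K W c.state.1 (c.tape c.pos) q.1 b d := hδ
      rw [hst] at hg'
      have h4 := h3.1
      rw [hst] at h4
      exact hB A h rel p0 facc K W w _ c.tape ht h2.2.1 _ _ _ _ b d h2.1 h4 hTr hg'

theorem cfg_ext {M : LimAut A} : ∀ {c c' : Cfg M}, c.state = c'.state → c.pos = c'.pos →
    c.tape = c'.tape → c.seen = c'.seen → c = c'
  | ⟨_, _, _, _⟩, ⟨_, _, _, _⟩, rfl, rfl, rfl, rfl => rfl

/-- the next good configuration is unique -/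
theorem next_unique (hM : S_MOV) (hL : S_LOC) {strict : Prop} {w : List A}
    {c c₁ c₂ : Cfg (uM h rel p0 facc K W N hQ)} (hc : Inv w c)
    (hs₁ : Step strict w.length c c₁) (hs₂ : Step strict w.length c c₂)
    (hg₁ : GoodC w c₁) (hg₂ : GoodC w c₂) : c₁ = c₂ := by
  have key : ∀ c' : Cfg (uM h rel p0 facc K W N hQ), ∀ t ≤ w.length, Ph2 w t c →
      Step strict w.length c c' → GoodC w c' → Good h rel p0 W w t c'.state.1 := by
    intro c' t ht h2 hs hg
    rcases step2 hM ht h2 hs with ⟨-, ⟨x, hx, -⟩, -⟩ | h3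
    · rw [hx]
      trivial
    · exact hg _ h3.2.2.2
  have k₁ := fun t ht h2 => key c₁ t ht h2 hs₁ hg₁
  have k₂ := fun t ht h2 => key c₂ t ht h2 hs₂ hg₂
  obtain ⟨-, q₁, b₁, d₁, hδ₁, -, hst₁, hta₁, htb₁, hseen₁, hr₁, hl₁⟩ := hs₁
  obtain ⟨-, q₂, b₂, d₂, hδ₂, -, hst₂, hta₂, htb₂, hseen₂, hr₂, hl₂⟩ := hs₂
  have hTr₁ : Tr h rel p0 facc K W c.state.1 (c.tape c.pos) q₁.1 b₁ d₁ := hδ₁
  have hTr₂ : Tr h rel p0 facc K W c.state.1 (c.tape c.pos) q₂.1 b₂ d₂ := hδ₂
  have main : q₁.1 = q₂.1 ∧ b₁ = b₂ ∧ d₁ = d₂ := by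
    obtain ⟨t, ht, ⟨x, e1, -⟩ | h2⟩ := hc
    · rw [e1] at hTr₁ hTr₂
      exact hL.2 A h rel p0 facc K W x _ _ _ _ _ _ _ hTr₁ hTr₂
    · have g₁ := k₁ t ht h2
      have g₂ := k₂ t ht h2
      rw [hst₁] at g₁
      rw [hst₂] at g₂
      exact hL.1 A h rel p0 facc K W w t c.tape ht h2.2.1 _ _ _ _ _ _ _ _ h2.1 hTr₁ hTr₂ g₁ g₂
  obtain ⟨e1, e2, e3⟩ := main
  have e4 : q₁ = q₂ := Subtype.ext e1
  subst e4 e2 e3
  refine cfg_ext (hst₁.trans hst₂.symm) ?_ ?_ (hseen₁.trans hseen₂.symm)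
  · cases hd : d₁ with
    | true => rw [hr₁ hd, hr₂ hd]
    | false =>
      have f1 := hl₁ hd
      have f2 := hl₂ hd
      omega
  · by_cases hin : c.pos ∈ c.seen
    · rw [hta₁ hin, hta₂ hin]
    · rw [htb₁ hin, htb₂ hin]

/-- the last configuration -/
def Ends (w : List A) (r : List (Cfg (uM h rel p0 facc K W N hQ))) : Prop :=
  ∃ c, r.getLast? = some c ∧ c.pos = w.length + 2 ∧
    c.state ∈ (uM h rel p0 facc K W N hQ : LimAut A).F ∪ uG h rel p0 facc K W N hQ

theorem good_head (hV : S_MV0) (hM : S_MOV) (hB : S_BCK) (hK : 0 < K) {strict : Prop} {w : List A} :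
    ∀ (r : List (Cfg (uM h rel p0 facc K W N hQ))) (c : Cfg (uM h rel p0 facc K W N hQ)),
      List.IsChain (Step strict w.length) (c :: r) → Ends w (c :: r) → Inv w c → GoodC w c
  | [], c, _, ⟨e, he, _, hF⟩, _ => by
    have hce : c = e := by simpa using he
    subst hce
    intro t _
    rcases hF with hF | hF
    · have h1 : c.state.1 = .fin true := hF
      rw [h1]
      trivial
    · have h1 : c.state.1 = .fin false := hF
      rw [h1]
      trivial
  | c' :: r, c, hch, ⟨e, he, he2, hF⟩, hI => by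
    rw [List.isChain_cons_cons] at hch
    have he' : (c' :: r).getLast? = some e := by
      rw [List.getLast?_cons_cons] at he
      exact he
    exact good_back hM hB hI hch.1
      (good_head hV hM hB hK r c' hch.2 ⟨e, he', he2, hF⟩ (inv_step hV hM hK hI hch.1))

theorem run_unique (hV : S_MV0) (hM : S_MOV) (hB : S_BCK) (hL : S_LOC) (hK : 0 < K) {strict : Prop}
    {w : List A} :
    ∀ (r r' : List (Cfg (uM h rel p0 facc K W N hQ))) (c : Cfg (uM h rel p0 facc K W N hQ)),
      List.IsChain (Step strict w.length) (c :: r) → List.IsChain (Step strict w.length) (c :: r') →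
      Ends w (c :: r) → Ends w (c :: r') → Inv w c → r = r'
  | [], [], _, _, _, _, _, _ => rfl
  | [], c₂ :: r', c, _, h2, ⟨e, he, hp, _⟩, _, _ => by
    have hce : c = e := by simpa using he
    subst hce
    rw [List.isChain_cons_cons] at h2
    have := h2.1.1
    omega
  | c₁ :: r, [], c, h1, _, _, ⟨e, he, hp, _⟩, _ => by
    have hce : c = e := by simpa using he
    subst hce
    rw [List.isChain_cons_cons] at h1
    have := h1.1.1
    omega
  | c₁ :: r, c₂ :: r', c, h1, h2, ⟨e₁, he₁, hp₁, hF₁⟩, ⟨e₂, he₂, hp₂, hF₂⟩, hI => by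
    rw [List.isChain_cons_cons] at h1 h2
    rw [List.getLast?_cons_cons] at he₁ he₂
    have i₁ := inv_step hV hM hK hI h1.1
    have i₂ := inv_step hV hM hK hI h2.1
    have g₁ := good_head hV hM hB hK r c₁ h1.2 ⟨e₁, he₁, hp₁, hF₁⟩ i₁
    have g₂ := good_head hV hM hB hK r' c₂ h2.2 ⟨e₂, he₂, hp₂, hF₂⟩ i₂
    have e : c₁ = c₂ := next_unique hM hL hI h1.1 h2.1 g₁ g₂
    subst e
    rw [run_unique hV hM hB hL hK r r' c₁ h1.2 h2.2 ⟨e₁, he₁, hp₁, hF₁⟩ ⟨e₂, he₂, hp₂, hF₂⟩ i₁]

theorem inv_reach (hV : S_MV0) (hM : S_MOV) (hK : 0 < K) {strict : Prop} {w : List A}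
    {c : Cfg (uM h rel p0 facc K W N hQ)}
    (hc : ReflTransGen (Step strict w.length) (init (uM h rel p0 facc K W N hQ) w) c) :
    Inv w c := by
  induction hc with
  | refl => exact inv_init w
  | tail _ hstep ih => exact inv_step hV hM hK ih hstep

end una

/-- **UNA** -/
theorem t_UNA (hV : S_MV0) (hM : S_MOV) (hB : S_BCK) (hL : S_LOC) : S_UNA := by
  intro A _ strict h rel p0 facc K W N hQ w hK
  refine ⟨?_, ?_⟩
  · rintro r r' ⟨hh, hc, he⟩ ⟨hh', hc', he'⟩
    cases r with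
    | nil => simp at hh
    | cons c r =>
      cases r' with
      | nil => simp at hh'
      | cons c' r' =>
        have e1 : c = init _ w := by simpa using hh
        have e2 : c' = init _ w := by simpa using hh'
        subst e1
        subst e2
        rw [run_unique hV hM hB hL hK r r' _ hc hc' he he' (inv_init w)]
  · intro c hc
    obtain ⟨t, ht, ⟨x, e1, -⟩ | ⟨hSOK, -⟩⟩ := inv_reach hV hM hK hc
    · rw [e1]
      exact ⟨fun h1 => absurd h1 (by simp), fun h1 => absurd h1 (by simp)⟩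
    · refine ⟨fun h1 => ?_, fun h1 => ?_⟩
      · rw [h1] at hSOK
        exact hSOK.2.2.1 rfl
      · rw [h1] at hSOK
        intro h2
        have := hSOK.2.2.2 h2
        exact absurd this (by simp)

end Pool.Agent.L0h95.UXU
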